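import Pool.Agent.Helper93.GS.Stmts

/-!
# The graded quotient algebra
-/

set_option autoImplicit false

namespace Pool.Agent.Helper93.GS

open Polynomial

/-- words as homogeneous polynomials -/
noncomputable def quo_F : FreeMonoid (Fin 2) →* Polynomial R where
  toFun w := Polynomial.monomial w.length (MonoidAlgebra.single w (1 : ℚ))
  map_one' := by
    show Polynomial.monomial 0 (MonoidAlgebra.single 1 (1 : ℚ)) = 1
    rw [← MonoidAlgebra.one_def]
    rfl
  map_mul' a b := by
    rw [Polynomial.monomial_mul_monomial, MonoidAlgebra.single_mul_single, one_mul,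
      FreeMonoid.length_mul]

/-- the homogeneous components as the coefficients of a polynomial -/
noncomputable def quo_γ : R →ₐ[ℚ] Polynomial R :=
  MonoidAlgebra.lift ℚ (Polynomial R) (FreeMonoid (Fin 2)) quo_F

lemma quo_single (w : FreeMonoid (Fin 2)) (c : ℚ) :
    quo_γ (MonoidAlgebra.single w c) =
      Polynomial.monomial w.length (MonoidAlgebra.single w c) := by
  unfold quo_γ
  rw [MonoidAlgebra.lift_single]
  show c • Polynomial.monomial w.length (MonoidAlgebra.single w (1 : ℚ)) = _
  rw [Polynomial.smul_monomial, MonoidAlgebra.smul_single, smul_eq_mul, mul_one]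

lemma quo_hom (n : ℕ) (f : R) (hf : f ∈ V n) : quo_γ f = Polynomial.monomial n f := by
  have h1 : f = ∑ w ∈ f.coeff.support, MonoidAlgebra.single w (f.coeff w) :=
    (MonoidAlgebra.sum_coeff_single f).symm
  conv_lhs => rw [h1]
  conv_rhs => rw [h1]
  rw [map_sum, map_sum]
  refine Finset.sum_congr rfl fun w hw => ?_
  rw [quo_single, hf w (Finsupp.mem_support_iff.1 hw)]

lemma quo_coeff_mem (n : ℕ) (f : R) : (quo_γ f).coeff n ∈ V n := by
  classical
  refine MonoidAlgebra.induction_linear (motive := fun f => (quo_γ f).coeff n ∈ V n) f ?_ ?_ ?_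
  · rw [map_zero, Polynomial.coeff_zero]
    exact (V n).zero_mem
  · intro a b ha hb
    rw [map_add, Polynomial.coeff_add]
    exact (V n).add_mem ha hb
  · intro w c
    rw [quo_single, Polynomial.coeff_monomial]
    split_ifs with h
    · intro w' hw'
      rw [MonoidAlgebra.coeff_single, Finsupp.single_apply] at hw'
      split_ifs at hw' with h2
      · rw [← h2]
        exact h
      · exact absurd rfl hw'
    · exact (V n).zero_mem

/-- the ideal -/
noncomputable def quo_I (rel : ℕ → Set R)
    (h2 : ∀ (m n : ℕ) (a b : R), a ∈ V m → b ∈ idl rel n → a * b ∈ idl rel (m + n)) :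
    Ideal R where
  carrier := {f | ∀ n, (quo_γ f).coeff n ∈ idl rel n}
  add_mem' := by
    intro a b ha hb n
    rw [map_add, Polynomial.coeff_add]
    exact (idl rel n).add_mem (ha n) (hb n)
  zero_mem' := by
    intro n
    rw [map_zero, Polynomial.coeff_zero]
    exact (idl rel n).zero_mem
  smul_mem' := by
    intro a b hb n
    rw [smul_eq_mul, map_mul, Polynomial.coeff_mul]
    refine (idl rel n).sum_mem ?_
    rintro ⟨i, j⟩ hij
    have hij := Finset.HasAntidiagonal.mem_antidiagonal.1 hij
    rw [← hij]
    exact h2 i j _ _ (quo_coeff_mem i a) (hb j)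

theorem st_QUO (_h1 : ST_VMUL) (h2 : ST_IDL) : ST_QUO := by
  intro rel hrel
  obtain ⟨g1, g2, g3, g4⟩ := h2 rel hrel
  have htwo : (quo_I rel g2).IsTwoSided := by
    constructor
    intro a b ha n
    rw [map_mul, Polynomial.coeff_mul]
    refine (idl rel n).sum_mem ?_
    rintro ⟨i, j⟩ hij
    have hij := Finset.HasAntidiagonal.mem_antidiagonal.1 hij
    rw [← hij]
    exact g3 i j _ _ (ha i) (quo_coeff_mem j b)
  refine ⟨R ⧸ quo_I rel g2, inferInstance, inferInstance, Ideal.Quotient.mkₐ ℚ (quo_I rel g2), ?_⟩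
  intro n f hf
  have h3 : (Ideal.Quotient.mkₐ ℚ (quo_I rel g2)) f = 0 ↔ f ∈ quo_I rel g2 :=
    Ideal.Quotient.eq_zero_iff_mem
  rw [h3]
  constructor
  · intro h
    have h4 := h n
    rw [quo_hom n f hf, Polynomial.coeff_monomial, if_pos rfl] at h4
    exact h4
  · intro h m
    rw [quo_hom n f hf, Polynomial.coeff_monomial]
    split_ifs with h5
    · rw [← h5]
      exact h
    · exact (idl rel m).zero_mem

end Pool.Agent.Helper93.GS
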