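import Pool.Agent.Helper93.GS.Stmts

/-!
# The linear span of a product of finitely many cyclic unipotent groups
-/

set_option autoImplicit false

namespace Pool.Agent.Helper93.GS

section span

variable {B : Type} [Ring B] [Algebra ℚ B]

/-- the span of the powers of `y` -/
def span_E (y : B) (k : ℕ) : Submodule ℚ B :=
  Submodule.span ℚ ((fun j : ℕ => y ^ j) '' {j | j < k + 1})

lemma span_E_fg (y : B) (k : ℕ) : (span_E y k).FG :=
  Submodule.fg_span ((Set.finite_lt_nat (k + 1)).image _)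

lemma span_one_mem (y : B) (k : ℕ) : (1 : B) ∈ span_E y k := by
  apply Submodule.subset_span
  exact ⟨0, Nat.succ_pos k, pow_zero y⟩

lemma span_mul_mem (y : B) (k : ℕ) (hy : y ^ k = 0) {b : B} (hb : b ∈ span_E y k) :
    b * y ∈ span_E y k := by
  unfold span_E at hb ⊢
  induction hb using Submodule.span_induction with
  | mem x hx =>
    obtain ⟨j, hj, rfl⟩ := hx
    have hj' : j < k + 1 := hj
    show y ^ j * y ∈ _
    rw [← pow_succ]
    rcases Nat.lt_or_ge (j + 1) (k + 1) with h | h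
    · apply Submodule.subset_span
      exact ⟨j + 1, h, rfl⟩
    · have : y ^ (j + 1) = 0 := pow_eq_zero_of_le (by omega) hy
      rw [this]
      exact Submodule.zero_mem _
  | zero => rw [zero_mul]; exact Submodule.zero_mem _
  | add a b _ _ ha hb => rw [add_mul]; exact Submodule.add_mem _ ha hb
  | smul c a _ ha => rw [smul_mul_assoc]; exact Submodule.smul_mem _ _ ha

lemma span_mul_poly (y : B) (k : ℕ) (hy : y ^ k = 0) (z : B)
    (hz : z ∈ Submodule.span ℚ (Set.range (fun j : ℕ => y ^ j))) {b : B}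
    (hb : b ∈ span_E y k) : b * z ∈ span_E y k := by
  induction hz using Submodule.span_induction with
  | mem x hx =>
    obtain ⟨j, rfl⟩ := hx
    show b * y ^ j ∈ _
    induction j with
    | zero => rw [pow_zero, mul_one]; exact hb
    | succ j ih =>
      rw [pow_succ, ← mul_assoc]
      exact span_mul_mem y k hy ih
  | zero => rw [mul_zero]; exact Submodule.zero_mem _
  | add a c _ _ ha hc => rw [mul_add]; exact Submodule.add_mem _ ha hc
  | smul c a _ ha => rw [mul_smul_comm]; exact Submodule.smul_mem _ _ ha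

omit [Algebra ℚ B] in
lemma span_inv (u : Bˣ) (k : ℕ) (hk : ((u : B) - 1) ^ k = 0) :
    ((u⁻¹ : Bˣ) : B) = ∑ j ∈ Finset.range k, (-((u : B) - 1)) ^ j := by
  have h1 : (∑ j ∈ Finset.range k, (-((u : B) - 1)) ^ j) * (1 - (-((u : B) - 1))) = 1 := by
    rw [geom_sum_mul_neg, neg_pow, hk, mul_zero, sub_zero]
  have h2 : (1 : B) - (-((u : B) - 1)) = u := by abel
  rw [h2] at h1
  calc ((u⁻¹ : Bˣ) : B) = ((∑ j ∈ Finset.range k, (-((u : B) - 1)) ^ j) * u) *
        ((u⁻¹ : Bˣ) : B) := by rw [h1, one_mul]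
    _ = _ := by rw [mul_assoc, Units.mul_inv, mul_one]

lemma span_zpow (u : Bˣ) (k : ℕ) (hk : ((u : B) - 1) ^ k = 0) (a : ℤ) :
    ((u ^ a : Bˣ) : B) ∈ span_E ((u : B) - 1) k := by
  have hu : (u : B) ∈ Submodule.span ℚ (Set.range (fun j : ℕ => ((u : B) - 1) ^ j)) := by
    have h1 : (u : B) = ((u : B) - 1) ^ 1 + ((u : B) - 1) ^ 0 := by
      rw [pow_one, pow_zero]; abel
    have h2 : ((u : B) - 1) ^ 1 ∈ Submodule.span ℚ (Set.range (fun j : ℕ => ((u : B) - 1) ^ j)) :=
      Submodule.subset_span ⟨1, rfl⟩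
    have h3 : ((u : B) - 1) ^ 0 ∈ Submodule.span ℚ (Set.range (fun j : ℕ => ((u : B) - 1) ^ j)) :=
      Submodule.subset_span ⟨0, rfl⟩
    have h4 := Submodule.add_mem _ h2 h3
    rw [← h1] at h4
    exact h4
  have hui : ((u⁻¹ : Bˣ) : B) ∈
      Submodule.span ℚ (Set.range (fun j : ℕ => ((u : B) - 1) ^ j)) := by
    rw [span_inv u k hk]
    refine Submodule.sum_mem _ fun j _ => ?_
    rw [neg_pow]
    rcases neg_one_pow_eq_or B j with h | h
    · rw [h, one_mul]
      exact Submodule.subset_span ⟨j, rfl⟩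
    · rw [h, neg_one_mul]
      exact Submodule.neg_mem _ (Submodule.subset_span ⟨j, rfl⟩)
  have hnat : ∀ n : ℕ, ((u ^ n : Bˣ) : B) ∈ span_E ((u : B) - 1) k ∧
      ((u⁻¹ ^ n : Bˣ) : B) ∈ span_E ((u : B) - 1) k := by
    intro n
    induction n with
    | zero =>
      rw [pow_zero, pow_zero, Units.val_one]
      exact ⟨span_one_mem _ _, span_one_mem _ _⟩
    | succ n ih =>
      rw [pow_succ, pow_succ, Units.val_mul, Units.val_mul]
      exact ⟨span_mul_poly _ k hk _ hu ih.1, span_mul_poly _ k hk _ hui ih.2⟩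
  rcases Int.eq_nat_or_neg a with ⟨n, rfl | rfl⟩
  · rw [zpow_natCast]
    exact (hnat n).1
  · rw [zpow_neg, zpow_natCast, ← inv_pow]
    exact (hnat n).2

lemma span_list (G : Subgroup Bˣ) (hG : ∀ u ∈ G, ∃ k : ℕ, ((u : B) - 1) ^ k = 0) :
    ∀ l : List G, ∃ E : Submodule ℚ B, E.FG ∧ ∀ g : G, Pcp l g → ((g : Bˣ) : B) ∈ E := by
  intro l
  induction l with
  | nil =>
    refine ⟨Submodule.span ℚ {1}, ⟨{1}, by simp⟩, ?_⟩
    intro g hg
    have : g = 1 := hg
    rw [this]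
    exact Submodule.subset_span rfl
  | cons x l ih =>
    obtain ⟨E, hE, hEm⟩ := ih
    obtain ⟨k, hk⟩ := hG x x.2
    refine ⟨span_E (((x : Bˣ) : B) - 1) k * E, (span_E_fg _ _).mul hE, ?_⟩
    rintro g ⟨a, y, hy, rfl⟩
    have h1 : (((x ^ a * y : G) : Bˣ) : B) = ((((x : G) : Bˣ) ^ a : Bˣ) : B) * ((y : Bˣ) : B) := by
      rw [Subgroup.coe_mul, Units.val_mul, Subgroup.coe_zpow]
    rw [h1]
    exact Submodule.mul_mem_mul (span_zpow _ k hk a) (hEm y hy)

end span

theorem st_SPAN : ST_SPAN := by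
  intro B _ _ G hG hl
  obtain ⟨l, hl⟩ := hl
  obtain ⟨E, hE, hEm⟩ := span_list G hG l
  refine Submodule.FG.of_le hE ?_
  rw [Submodule.span_le]
  rintro b ⟨u, hu, rfl⟩
  exact hEm ⟨u, hu⟩ (hl ⟨u, hu⟩)

end Pool.Agent.Helper93.GS
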